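import Mathlib

set_option autoImplicit false

namespace Pool.Agent.Results.MP_b665a0_nt.Fourteen

/-- The assertion of Q1 is false: it fails for `n = 14`. -/
theorem result :
    ¬ ∀ n : ℕ, 1 < n → n ≠ 8 → ∃ k : ℕ, 1 ≤ k ∧ k < n ∧ Nat.Prime (2 * k + 1) ∧
      Nat.primeCounting (k * n) - Nat.primeCounting ((k - 1) * n) =
        Nat.primeCounting ((k + 1) * n) - Nat.primeCounting (k * n) := by
  intro h
  obtain ⟨k, h1, h2, h3, h4⟩ := h 14 (by norm_num) (by norm_num)
  have key : ∀ k ∈ Finset.Ico 1 14, Nat.Prime (2 * k + 1) →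
      Nat.primeCounting (k * 14) - Nat.primeCounting ((k - 1) * 14) ≠
        Nat.primeCounting ((k + 1) * 14) - Nat.primeCounting (k * 14) := by
    decide +kernel
  exact key k (Finset.mem_Ico.2 ⟨h1, h2⟩) h3 h4

end Pool.Agent.Results.MP_b665a0_nt.Fourteen
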